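import Pool.Agent.H55.CU.Targets
import Pool.Agent.H96.Cop.Dec

/-!
# Board `cou_modules`, row DEC: the first excursion below the interface with more than `L` sites
-/

set_option autoImplicit false

open MeasureTheory ProbabilityTheory Filter Topology
open scoped ENNReal
open Pool.Agent.H95 Pool.Agent.H95.Cop Pool.Agent.H96.Cop

namespace Pool.Agent.H14.CU

open Pool.Agent.H55.CU

namespace DEC

/-- the excursions which start at `t` -/
noncomputable def G (K : PMF ℕ) (L L' s t : ℕ) (x : ℕ → ℝ) : ℝ≥0∞ :=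
  ∑ m ∈ Finset.Ioc L L', if t + m ≤ s then pk K m * 2⁻¹ * ex t (t + m) x *
    AA K L' (s - t - m) (shift (t + m) x) else 0

theorem G_shift (K : PMF ℕ) (L L' s j t : ℕ) (hj : j ≤ s) (x : ℕ → ℝ) :
    G K L L' (s - j) t (shift (j + 1) x) = G K L L' (s + 1) (j + t + 1) x := by
  unfold G
  refine Finset.sum_congr rfl fun m _ => ?_
  by_cases h : t + m ≤ s - j
  · rw [if_pos h, if_pos (by omega), ex_shift, shift_shift]
    have e1 : t + (j + 1) = j + t + 1 := by omega
    have e2 : t + m + (j + 1) = j + t + 1 + m := by omega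
    have e3 : s - j - t - m = s + 1 - (j + t + 1) - m := by omega
    rw [e1, e2, e3]
  · rw [if_neg h, if_neg (by omega)]

theorem wt_le (K : PMF ℕ) (L L' n : ℕ) (x : ℕ → ℝ) (h : L ≤ L') :
    wt K L' n x ≤ wt K L n x + if L < n ∧ n ≤ L' then pk K n * 2⁻¹ * ex 0 n x else 0 := by
  unfold H96.Cop.wt
  by_cases h1 : n ≤ L
  · rw [if_pos (h1.trans h), if_pos h1]
    exact le_self_add
  · by_cases h2 : n ≤ L'
    · rw [if_pos h2, if_neg h1, if_pos ⟨not_le.1 h1, h2⟩]
      refine le_of_eq ?_
      ring
    · rw [if_neg h2, if_neg h1]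
      exact le_self_add

theorem first_le (K : PMF ℕ) (L L' s : ℕ) (x : ℕ → ℝ) :
    ∑ j ∈ Finset.range (s + 1), (if L < j + 1 ∧ j + 1 ≤ L' then
      pk K (j + 1) * 2⁻¹ * ex 0 (j + 1) x else 0) * AA K L' (s - j) (shift (j + 1) x) ≤
      G K L L' (s + 1) 0 x := by
  have h1 : ∑ j ∈ Finset.range (s + 1), (if L < j + 1 ∧ j + 1 ≤ L' then
      pk K (j + 1) * 2⁻¹ * ex 0 (j + 1) x else 0) * AA K L' (s - j) (shift (j + 1) x) =
      ∑ m ∈ Finset.Ico 1 (s + 2), if L < m ∧ m ≤ L' then
        pk K m * 2⁻¹ * ex 0 m x * AA K L' (s + 1 - m) (shift m x) else 0 := by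
    rw [Finset.sum_Ico_eq_sum_range]
    have e0 : s + 2 - 1 = s + 1 := by omega
    rw [e0]
    refine Finset.sum_congr rfl fun j hj => ?_
    have e1 : 1 + j = j + 1 := by omega
    have e2 : s + 1 - (j + 1) = s - j := by omega
    rw [e1, e2]
    by_cases h : L < j + 1 ∧ j + 1 ≤ L'
    · rw [if_pos h, if_pos h]
    · rw [if_neg h, if_neg h, zero_mul]
  rw [h1]
  unfold G
  rw [← Finset.sum_filter, ← Finset.sum_filter]
  have h2 : ∀ m ∈ (Finset.Ioc L L').filter (fun m => 0 + m ≤ s + 1),
      pk K m * 2⁻¹ * ex 0 (0 + m) x * AA K L' (s + 1 - 0 - m) (shift (0 + m) x) =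
      pk K m * 2⁻¹ * ex 0 m x * AA K L' (s + 1 - m) (shift m x) := by
    intro m _
    rw [Nat.zero_add, Nat.sub_zero]
  rw [Finset.sum_congr rfl h2]
  refine Finset.sum_le_sum_of_subset fun m hm => ?_
  rw [Finset.mem_filter, Finset.mem_Ico] at hm
  rw [Finset.mem_filter, Finset.mem_Ioc]
  exact ⟨hm.2, by omega⟩

theorem main (K : PMF ℕ) (L L' : ℕ) (h : L ≤ L') : ∀ (s : ℕ) (x : ℕ → ℝ),
    AA K L' s x ≤ AA K L s x + ∑ t ∈ Finset.range (s + 1), AA K L t x * G K L L' s t x := by
  intro s
  induction s using Nat.strong_induction_on with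
  | _ s ih =>
    intro x
    rcases s with _ | s
    · rw [AA_zero, AA_zero]
      exact le_self_add
    · have h1 : AA K L' (s + 1) x ≤
          ∑ j ∈ Finset.range (s + 1), wt K L (j + 1) x * AA K L' (s - j) (shift (j + 1) x) +
          G K L L' (s + 1) 0 x := by
        rw [AA_succ]
        refine le_trans (Finset.sum_le_sum fun j _ =>
          mul_le_mul' (wt_le K L L' (j + 1) x h) le_rfl) ?_
        simp only [add_mul]
        rw [Finset.sum_add_distrib]
        exact add_le_add le_rfl (first_le K L L' s x)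
      have h2 : ∑ j ∈ Finset.range (s + 1), wt K L (j + 1) x *
            AA K L' (s - j) (shift (j + 1) x) ≤
          AA K L (s + 1) x + ∑ r ∈ Finset.range (s + 1), AA K L (r + 1) x *
            G K L L' (s + 1) (r + 1) x := by
        have h3 : ∀ j ∈ Finset.range (s + 1), wt K L (j + 1) x *
              AA K L' (s - j) (shift (j + 1) x) ≤
            wt K L (j + 1) x * AA K L (s - j) (shift (j + 1) x) +
            ∑ t ∈ Finset.range (s + 1 - j), wt K L (j + 1) x * (AA K L t (shift (j + 1) x) *
              G K L L' (s + 1) (j + t + 1) x) := by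
          intro j hj
          rw [Finset.mem_range] at hj
          have h4 := mul_le_mul' (le_refl (wt K L (j + 1) x))
            (ih (s - j) (by omega) (shift (j + 1) x))
          refine h4.trans (le_of_eq ?_)
          rw [mul_add, Finset.mul_sum]
          have e1 : s - j + 1 = s + 1 - j := by omega
          rw [e1]
          refine congrArg₂ (· + ·) rfl (Finset.sum_congr rfl fun t _ => ?_)
          rw [G_shift K L L' s j t (by omega) x]
        refine (Finset.sum_le_sum h3).trans ?_
        rw [Finset.sum_add_distrib, ← AA_succ]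
        refine add_le_add le_rfl (le_of_eq ?_)
        rw [sum_tri (s + 1) (fun j t => wt K L (j + 1) x * (AA K L t (shift (j + 1) x) *
              G K L L' (s + 1) (j + t + 1) x))]
        refine Finset.sum_congr rfl fun r _ => ?_
        rw [AA_succ, Finset.sum_mul]
        refine Finset.sum_congr rfl fun j hj => ?_
        rw [Finset.mem_range] at hj
        have e1 : j + (r - j) = r := by omega
        rw [e1, mul_assoc]
      refine h1.trans ?_
      refine (add_le_add h2 le_rfl).trans (le_of_eq ?_)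
      rw [Finset.sum_range_succ' _ (s + 1), AA_zero, one_mul, add_assoc]

end DEC

theorem pf_DEC : T_DEC := by
  intro K L L' h s x
  refine (DEC.main K L L' h s x).trans (le_of_eq ?_)
  refine congrArg₂ (· + ·) rfl (Finset.sum_congr rfl fun t _ => ?_)
  unfold DEC.G
  rw [Finset.mul_sum]
  refine Finset.sum_congr rfl fun m _ => ?_
  by_cases h1 : t + m ≤ s
  · rw [if_pos h1, if_pos h1, ← mul_assoc]
  · rw [if_neg h1, if_neg h1, mul_zero]

end Pool.Agent.H14.CU
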