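import Pool.Agent.H55.CU.Targets

/-!
# Board `cou_modules`, row STR: the step for real sequences
-/

set_option autoImplicit false

open MeasureTheory ProbabilityTheory Filter Topology
open scoped ENNReal
open Pool.Agent.H95 Pool.Agent.H95.Cop Pool.Agent.H96.Cop

namespace Pool.Agent.H14.CU

open Pool.Agent.H55.CU

theorem pf_STR (hPW : T_PW) (hCNV : T_CNV) (hBKP : T_BKP) (hTHP : T_THP) (hAEX : T_AEX)
    (hNUF : T_NUF) (hNUR : T_NUR) : T_STR := by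
  intro α s X hα hα1 hαs hX hR
  obtain ⟨θ, hθ⟩ : ∃ θ, θ = th α (s + 1) := ⟨_, rfl⟩
  have hα4 : α ≤ 1 / 4 := hα1.trans (by norm_num)
  obtain ⟨t1, t2, -, t3, t4⟩ := hTHP α (s + 1) hα hα4
  obtain ⟨n1, n2, n3, n4, n5⟩ := hNUF α s hα hα1 hαs
  rw [← hθ] at t1 t2 t3 t4 n2
  have a4 : ((2 : ℝ) ^ 23) ^ (1 - θ) ≤ 2 := (hAEX α θ hα hα1 t2 t4).2.2.2.1
  have hc : 0 ≤ cc α := by
    unfold cc
    positivity
  have hs0 : (0 : ℝ) < 2 ^ s := by positivity
  have hs1 : (1 : ℝ) ≤ 2 ^ s := one_le_pow₀ (by norm_num)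
  have h2s : (2 : ℝ) ^ (s + 1) = 2 * 2 ^ s := by rw [pow_succ]; ring
  have hβ : 0 < α ^ (2 * θ) := Real.rpow_pos_of_pos hα _
  have hε : 0 < α / 2 ^ (s + 1) := by positivity
  have hJ : (((2 : ℕ) ^ s : ℕ) : ℝ) = 2 ^ s := by push_cast; rfl
  have hdd : ∀ a : ℕ, 1 ≤ a → 1 ≤ dd (cc α) s a := fun a ha =>
    le_trans (by norm_num) (hBKP (cc α) s a hc ha).2.1
  have hbr : ∀ a : ℕ, 1 ≤ a → 36 * 6 * (5 * 2 ^ 23 * α * 2 ^ s) * 2 ^ 23 +
      (if a ≤ 8 * 2 ^ s then 2 * (3 / 2 ^ s) * (10 * α) ^ 2 / α ^ (2 * θ) *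
        (1 + (a : ℝ)) ^ (1 + α / 2 ^ (s + 1)) else 0) ≤ rr (cc α) s a := by
    intro a ha
    rw [hθ]
    exact hNUR α s a hα hα1 hαs ha
  obtain ⟨c1, c2⟩ := hPW (2 ^ s) (3 / 2 ^ s) 6 (α ^ (2 * θ)) (α / 2 ^ (s + 1)) (2 ^ 23)
    (5 * 2 ^ 23 * α * 2 ^ s) (10 * α) (FF α s) X (fun a => dd (cc α) s a ^ θ)
    (Nat.one_le_two_pow) (by positivity)
    (by
      rw [hJ, add_mul, one_mul, mul_div_cancel₀ _ hs0.ne']
      have : (3 : ℝ) / 2 ^ s ≤ 3 := div_le_self (by norm_num) hs1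
      linarith)
    hβ hε
    (by
      rw [div_le_one (by positivity)]
      calc α ≤ 1 := by linarith
        _ ≤ 2 ^ (s + 1) := one_le_pow₀ (by norm_num))
    (by positivity) n1 hX n4
    (by
      rw [h2s] at hαs
      have h1 : α * 2 ^ s ≤ 1 / 2 ^ 38 := by
        have : α * (2 * 2 ^ s) = 2 * (α * 2 ^ s) := by ring
        rw [this] at hαs
        norm_num at hαs ⊢
        linarith
      calc 5 * 2 ^ 23 * α * 2 ^ s * 6 = 30 * 2 ^ 23 * (α * 2 ^ s) := by ring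
        _ ≤ 30 * 2 ^ 23 * (1 / 2 ^ 38) := by gcongr
        _ ≤ 1 / 2 := by norm_num)
    n5 hR
    (fun a ha => by
      have h1 := (n3 a ha).2.2
      rw [← hθ] at h1
      exact h1.le)
    (fun a ha => by
      have h1 := (n3 a ha).1
      have h2 := hbr a ha
      have h3 : dd (cc α) s a ^ θ ≤ dd (cc α) s a := by
        calc dd (cc α) s a ^ θ ≤ dd (cc α) s a ^ (1 : ℝ) :=
              Real.rpow_le_rpow_of_exponent_le (hdd a ha) t2
          _ = dd (cc α) s a := Real.rpow_one _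
      exact le_trans (add_le_add h3 h2) h1)
  intro a
  rw [← hθ]
  rcases Nat.eq_zero_or_pos a with rfl | ha
  · refine c1.trans (le_of_eq ?_)
    rw [n2]
    unfold dd nn
    rw [if_pos rfl, if_pos rfl]
  · refine (c2 a ha).trans ?_
    obtain ⟨b1, b2, b3, b4⟩ := hBKP (cc α) s a hc ha
    have ha0 : (0 : ℝ) < 1 + a := by positivity
    have e1 : (dd (cc α) (s + 1) a * nn α a) ^ θ = (dd (cc α) s a + 4 * rr (cc α) s a) ^ θ *
        (α ^ (2 * θ) * (1 + (a : ℝ)) ^ (-(1 + α / 2 ^ (s + 1)))) := by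
      rw [b4]
      unfold nn
      rw [if_neg ha.ne', Real.mul_rpow (by linarith [hdd a ha]) (by positivity),
        Real.mul_rpow (by positivity) (by positivity)]
      rw [← Real.rpow_mul ha0.le, ← Real.rpow_natCast α 2, ← Real.rpow_mul hα.le]
      have e2 : -(1 + α) * θ = -(1 + α / 2 ^ (s + 1)) := by rw [← t3]; ring
      rw [e2]
      norm_num
    rw [e1]
    refine mul_le_mul_of_nonneg_right ?_ (by positivity)
    have h4 := (n3 a ha).2.1
    rw [b4] at h4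
    have h5 := hCNV (dd (cc α) s a) (rr (cc α) s a) (2 ^ 23) θ (hdd a ha) b1 h4 t1 t2 a4
    exact le_trans (add_le_add le_rfl (hbr a ha)) h5

end Pool.Agent.H14.CU
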